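import Mathlib

open scoped ComplexOrder NNReal ENNReal Topology
open Filter

namespace Pool.Agent.Results.MP_6c6b5e_an.GlimmInvariant

section SR

variable {A : Type*} [CStarAlgebra A]

/-- real-valued spectral radius -/
noncomputable def sr (a : A) : ℝ := (spectralRadius ℂ a).toReal

lemma sr_nonneg (a : A) : 0 ≤ sr a := ENNReal.toReal_nonneg

lemma spectralRadius_le' [Nontrivial A] (a : A) : spectralRadius ℂ a ≤ ‖a‖₊ :=
  spectrum.spectralRadius_le_nnnorm a

lemma spectralRadius_ne_top [Nontrivial A] (a : A) : spectralRadius ℂ a ≠ ⊤ :=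
  ne_top_of_le_ne_top ENNReal.coe_ne_top (spectralRadius_le' a)

lemma sr_le_norm [Nontrivial A] (a : A) : sr a ≤ ‖a‖ := by
  have := ENNReal.toReal_mono ENNReal.coe_ne_top (spectralRadius_le' a)
  simpa [sr] using this

lemma norm_le_sr [Nontrivial A] {a : A} {μ : ℂ} (h : μ ∈ spectrum ℂ a) : ‖μ‖ ≤ sr a := by
  have h1 : (‖μ‖₊ : ℝ≥0∞) ≤ spectralRadius ℂ a :=
    le_iSup₂ (f := fun (k : ℂ) (_ : k ∈ spectrum ℂ a) => (‖k‖₊ : ℝ≥0∞)) μ h
  have := ENNReal.toReal_mono (spectralRadius_ne_top a) h1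
  simpa [sr] using this

lemma sr_le_of_forall {a : A} {K : ℝ} (hK : 0 ≤ K)
    (h : ∀ μ ∈ spectrum ℂ a, ‖μ‖ ≤ K) : sr a ≤ K := by
  have h1 : spectralRadius ℂ a ≤ ENNReal.ofReal K := by
    apply iSup₂_le
    intro μ hμ
    have h2 := ENNReal.ofReal_le_ofReal (h μ hμ)
    rwa [ofReal_norm] at h2
  have := ENNReal.toReal_mono ENNReal.ofReal_ne_top h1
  rwa [ENNReal.toReal_ofReal hK] at this

lemma exists_sr [Nontrivial A] (a : A) : ∃ μ ∈ spectrum ℂ a, ‖μ‖ = sr a := by
  obtain ⟨μ, hμ, h⟩ := spectrum.exists_nnnorm_eq_spectralRadius a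
  refine ⟨μ, hμ, ?_⟩
  rw [sr, ← h]
  simp

lemma sr_pow_le [Nontrivial A] (a : A) (n : ℕ) (K : ℝ) (hK : 0 ≤ K) (hn : n ≠ 0)
    (h : ‖a ^ n‖ ≤ K ^ n) : sr a ≤ K := by
  apply sr_le_of_forall hK
  intro μ hμ
  have h1 : μ ^ n ∈ spectrum ℂ (a ^ n) := spectrum.pow_mem_pow a n hμ
  have h2 := spectrum.norm_le_norm_of_mem h1
  rw [norm_pow] at h2
  exact le_of_pow_le_pow_left₀ hn hK (h2.trans h)

lemma exists_pow_lt [Nontrivial A] (a : A) {K : ℝ} (h : sr a < K) :
    ∀ᶠ n : ℕ in atTop, ‖a ^ n‖ < K ^ n := by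
  have h1 := spectrum.pow_nnnorm_pow_one_div_tendsto_nhds_spectralRadius a
  have hK : 0 ≤ K := (sr_nonneg a).trans h.le
  have h2 : spectralRadius ℂ a < ENNReal.ofReal K := by
    rw [← ENNReal.ofReal_toReal (spectralRadius_ne_top a)]
    exact ENNReal.ofReal_lt_ofReal_iff_of_nonneg (sr_nonneg a) |>.mpr h
  have h3 := h1.eventually_lt_const h2
  filter_upwards [h3, eventually_gt_atTop 0] with n hn hn0
  have hn0' : (0:ℝ) < n := by exact_mod_cast hn0
  have h4 : ((‖a ^ n‖₊ : ℝ≥0∞) ^ (1 / n : ℝ)) ^ (n : ℝ) < (ENNReal.ofReal K) ^ (n : ℝ) :=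
    ENNReal.rpow_lt_rpow hn hn0'
  rw [← ENNReal.rpow_mul, one_div, inv_mul_cancel₀ hn0'.ne', ENNReal.rpow_one,
    ENNReal.rpow_natCast, ← ENNReal.ofReal_pow hK] at h4
  have h5 : ENNReal.ofReal ‖a ^ n‖ < ENNReal.ofReal (K ^ n) := by
    rw [ofReal_norm]
    exact h4
  exact (ENNReal.ofReal_lt_ofReal_iff_of_nonneg (norm_nonneg _)).mp h5

lemma sr_smul [Nontrivial A] (c : ℂ) (a : A) : sr (c • a) = ‖c‖ * sr a := by
  by_cases hc : c = 0
  · subst hc
    simp [sr]
  have key : ∀ (c : ℂ) (a : A), c ≠ 0 → ‖c‖ * sr a ≤ sr (c • a) := by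
    intro c a hc
    obtain ⟨μ, hμ, h⟩ := exists_sr a
    have h1 : c * μ ∈ spectrum ℂ (c • a) := by
      have := spectrum.smul_mem_smul_iff (a := a) (s := μ) (r := Units.mk0 c hc)
      exact this.mpr hμ
    have h2 := norm_le_sr h1
    rw [norm_mul, h] at h2
    exact h2
  apply le_antisymm
  · have := key c⁻¹ (c • a) (inv_ne_zero hc)
    rw [smul_smul, inv_mul_cancel₀ hc, one_smul, norm_inv] at this
    have hc' : 0 < ‖c‖ := norm_pos_iff.mpr hc
    rw [inv_mul_le_iff₀ hc'] at this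
    exact this
  · exact key c a hc

lemma sr_neg [Nontrivial A] (a : A) : sr (-a) = sr a := by
  have := sr_smul (-1 : ℂ) a
  simpa using this

lemma sr_star [Nontrivial A] (a : A) : sr (star a) = sr a := by
  have key : ∀ a : A, sr (star a) ≤ sr a := by
    intro a
    apply sr_le_of_forall (sr_nonneg a)
    intro μ hμ
    rw [spectrum.map_star] at hμ
    have := norm_le_sr (a := a) (μ := star μ) (by simpa using hμ)
    simpa using this
  apply le_antisymm (key a)
  have := key (star a)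
  rwa [star_star] at this

lemma sr_eq_norm_of_selfAdjoint [Nontrivial A] {a : A} (ha : IsSelfAdjoint a) : sr a = ‖a‖ := by
  rw [sr, ha.spectralRadius_eq_nnnorm]
  simp

lemma sr_eq_norm_of_normal [Nontrivial A] (a : A) [IsStarNormal a] : sr a = ‖a‖ := by
  rw [sr, IsStarNormal.spectralRadius_eq_nnnorm a]
  simp

lemma sr_zero : sr (0 : A) = 0 := by simp [sr]

lemma sr_usc [Nontrivial A] (a : A) {K : ℝ} (h : sr a < K) :
    ∃ δ > 0, ∀ v : A, ‖v‖ < δ → sr (a + v) < K := by
  -- choose `n` with `‖a^n‖ < K₁^n`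
  obtain ⟨K₁, hK1, hK2⟩ := exists_between h
  have hK1' : 0 ≤ K₁ := (sr_nonneg a).trans hK1.le
  obtain ⟨n, hn, hn0⟩ := ((exists_pow_lt a hK1).and (eventually_gt_atTop 0)).exists
  have hc : Continuous fun v : A => ‖(a + v) ^ n‖ := by fun_prop
  have h1 : ∀ᶠ v in 𝓝 (0 : A), ‖(a + v) ^ n‖ < K₁ ^ n := by
    have := hc.tendsto 0
    simp only [add_zero] at this
    exact this.eventually_lt_const hn
  obtain ⟨δ, hδ, h2⟩ := Metric.eventually_nhds_iff.mp h1
  refine ⟨δ, hδ, fun v hv => ?_⟩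
  have h3 := h2 (y := v) (by simpa using hv)
  exact (sr_pow_le (a + v) n K₁ hK1' (by omega) h3.le).trans_lt hK2

end SR

section Vesentini

variable {B : Type*} [CStarAlgebra B] [Nontrivial B]

/-- maximum principle for the spectral radius of an entire function -/
lemma sr_le_of_circle {F : ℂ → B} (hF : Differentiable ℂ F) {R : ℝ} (hR : 0 < R) {K : ℝ}
    (hK : ∀ l : ℂ, ‖l‖ = R → sr (F l) ≤ K) : sr (F 0) ≤ K := by
  have hK0 : 0 ≤ K := by
    have := hK (R : ℂ) (by simp [abs_of_pos hR])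
    exact (sr_nonneg _).trans this
  apply le_of_forall_pos_le_add
  intro ε hε
  -- a uniform power
  let U : ℕ → Set ℂ := fun k => {l | ‖F l ^ (2 ^ k)‖ < (K + ε) ^ (2 ^ k)}
  have hUopen : ∀ k, IsOpen (U k) := by
    intro k
    have hc := hF.continuous
    exact isOpen_lt (by fun_prop) continuous_const
  have hUmono : Monotone U := by
    apply monotone_nat_of_le_succ
    intro k l hl
    simp only [U, Set.mem_ofPred_eq] at hl ⊢
    rw [pow_succ, pow_mul, pow_mul, sq, sq]
    calc ‖F l ^ 2 ^ k * F l ^ 2 ^ k‖ ≤ ‖F l ^ 2 ^ k‖ * ‖F l ^ 2 ^ k‖ := norm_mul_le _ _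
      _ < (K + ε) ^ 2 ^ k * (K + ε) ^ 2 ^ k := by
        have h0 := norm_nonneg (F l ^ 2 ^ k)
        nlinarith
  have hcover : Metric.sphere (0 : ℂ) R ⊆ ⋃ k, U k := by
    intro l hl
    rw [mem_sphere_zero_iff_norm] at hl
    have h1 : sr (F l) < K + ε := (hK l hl).trans_lt (by linarith)
    have h2 := exists_pow_lt (F l) h1
    have h3 : Tendsto (fun k : ℕ => 2 ^ k) atTop atTop :=
      tendsto_pow_atTop_atTop_of_one_lt (by norm_num)
    obtain ⟨k, hk⟩ := (h3.eventually h2).exists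
    exact Set.mem_iUnion.mpr ⟨k, hk⟩
  obtain ⟨k, hk⟩ := (isCompact_sphere (0 : ℂ) R).elim_directed_cover U hUopen hcover
    (hUmono.directed_le)
  have hball : ‖F 0 ^ (2 ^ k)‖ ≤ (K + ε) ^ (2 ^ k) := by
    have hd : DiffContOnCl ℂ (fun l => F l ^ (2 ^ k)) (Metric.ball 0 R) :=
      (hF.pow _).diffContOnCl
    apply Complex.norm_le_of_forall_mem_frontier_norm_le Metric.isBounded_ball hd
    · intro z hz
      rw [frontier_ball 0 hR.ne'] at hz
      exact (hk hz).le
    · exact subset_closure (Metric.mem_ball_self hR)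
  exact sr_pow_le _ _ _ (by linarith) (by positivity) hball

end Vesentini


section Center

set_option linter.unusedSectionVars false

variable {B : Type*} [CStarAlgebra B] [Nontrivial B]

/-- bounded perturbation property of the spectral radius -/
def Bdd (u : B) : Prop := ∃ M : ℝ, ∀ b : B, sr (u + b) ≤ M * (1 + sr b)

lemma Bdd.nonneg {u : B} {M : ℝ} (h : ∀ b : B, sr (u + b) ≤ M * (1 + sr b)) : 0 ≤ M := by
  have h1 := h 0
  rw [sr_zero, add_zero] at h1
  have := sr_nonneg u
  linarith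

lemma Bdd.star {u : B} (h : Bdd u) : Bdd (star u) := by
  obtain ⟨M, hM⟩ := h
  refine ⟨M, fun b => ?_⟩
  have h1 : Star.star u + b = Star.star (u + Star.star b) := by simp
  rw [h1, sr_star]
  have := hM (Star.star b)
  rwa [sr_star] at this

lemma Bdd.add {u v : B} (hu : Bdd u) (hv : Bdd v) : Bdd (u + v) := by
  obtain ⟨M, hM⟩ := hu
  obtain ⟨N, hN⟩ := hv
  have hM0 := Bdd.nonneg hM
  have hN0 := Bdd.nonneg hN
  refine ⟨M + M * N, fun b => ?_⟩
  have h1 := hM (v + b)
  have h2 := hN b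
  have h3 := sr_nonneg b
  rw [← add_assoc] at h1
  have h4 : M * (1 + sr (v + b)) ≤ M * (1 + N * (1 + sr b)) := by gcongr
  nlinarith [mul_nonneg hM0 h3]

lemma Bdd.smul {u : B} (hu : Bdd u) (c : ℂ) : Bdd (c • u) := by
  obtain ⟨M, hM⟩ := hu
  have hM0 := Bdd.nonneg hM
  by_cases hc : c = 0
  · subst hc
    refine ⟨1, fun b => ?_⟩
    rw [zero_smul, zero_add]
    linarith
  · have hc' : 0 < ‖c‖ := norm_pos_iff.mpr hc
    refine ⟨M * (‖c‖ + 1), fun b => ?_⟩
    have h1 : c • u + b = c • (u + c⁻¹ • b) := by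
      rw [smul_add, smul_smul, mul_inv_cancel₀ hc, one_smul]
    rw [h1, sr_smul]
    have h2 := hM (c⁻¹ • b)
    rw [sr_smul, norm_inv] at h2
    have h3 := sr_nonneg b
    calc ‖c‖ * sr (u + c⁻¹ • b) ≤ ‖c‖ * (M * (1 + ‖c‖⁻¹ * sr b)) := by gcongr
      _ = M * (‖c‖ + sr b) := by field_simp
      _ ≤ M * ((‖c‖ + 1) * (1 + sr b)) := by
        gcongr
        nlinarith
      _ = M * (‖c‖ + 1) * (1 + sr b) := by ring

lemma sr_conj (u : B) (v : Bˣ) : sr ((v : B) * u * ((v⁻¹ : Bˣ) : B)) = sr u := by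
  unfold sr spectralRadius
  rw [spectrum.units_conjugate]

lemma Bdd.sr_comm {u : B} (hu : Bdd u) (c : B) : sr (c * u - u * c) = 0 := by
  obtain ⟨M, hM⟩ := hu
  have hM0 := Bdd.nonneg hM
  let g : ℂ → B := fun l => NormedSpace.exp (l • c) * u * NormedSpace.exp (l • (-c))
  have hg0 : g 0 = u := by simp [g]
  have hgd : ∀ l, HasDerivAt g ((NormedSpace.exp (l • c) * c) * u * NormedSpace.exp (l • (-c))
      + NormedSpace.exp (l • c) * u * (NormedSpace.exp (l • (-c)) * (-c))) l := by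
    intro l
    exact ((hasDerivAt_exp_smul_const c l).mul_const u).mul (hasDerivAt_exp_smul_const (-c) l)
  have hgD : Differentiable ℂ g := fun l => (hgd l).differentiableAt
  have hderiv : deriv g 0 = c * u - u * c := by
    rw [(hgd 0).deriv]
    simp [sub_eq_add_neg]
  have hunit : ∀ l : ℂ, sr (g l) = sr u := by
    intro l
    let _ : NormedAlgebra ℚ B := NormedAlgebra.restrictScalars ℚ ℂ B
    have h1 : NormedSpace.exp (l • c) * NormedSpace.exp (l • (-c)) = 1 := by
      rw [← NormedSpace.exp_add_of_commute]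
      · simp
      · simp only [smul_neg]
        exact (Commute.refl (l • c)).neg_right
    have h2 : NormedSpace.exp (l • (-c)) * NormedSpace.exp (l • c) = 1 := by
      rw [← NormedSpace.exp_add_of_commute]
      · simp
      · simp only [smul_neg]
        exact (Commute.refl (l • c)).neg_left
    exact sr_conj u ⟨NormedSpace.exp (l • c), NormedSpace.exp (l • (-c)), h1, h2⟩
  have hfD : Differentiable ℂ (dslope g 0) := by
    rw [← differentiableOn_univ]
    exact (Complex.differentiableOn_dslope Filter.univ_mem).mpr hgD.differentiableOn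
  have hbound : ∀ R : ℝ, 0 < R → sr (c * u - u * c) ≤ R⁻¹ * (M * (1 + sr u)) := by
    intro R hR
    have h0 : dslope g 0 0 = c * u - u * c := by rw [dslope_same, hderiv]
    rw [← h0]
    apply sr_le_of_circle hfD hR
    intro l hl
    have hl0 : l ≠ 0 := by
      intro h
      rw [h, norm_zero] at hl
      linarith
    rw [dslope_of_ne _ hl0, slope_def_module, sub_zero, hg0, sr_smul, norm_inv, hl]
    have h1 : g l - u = -(u + (-g l)) := by abel
    rw [h1, sr_neg]
    have h2 := hM (-g l)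
    rw [sr_neg, hunit] at h2
    gcongr
  apply le_antisymm _ (sr_nonneg _)
  by_contra hcon
  push Not at hcon
  have hs := sr_nonneg u
  have hK : 0 ≤ M * (1 + sr u) := by positivity
  have := hbound ((M * (1 + sr u) + 1) / sr (c * u - u * c)) (by positivity)
  rw [inv_div, div_mul_eq_mul_div, le_div_iff₀ (by positivity)] at this
  nlinarith

lemma Bdd.commute_of_selfAdjoint {u c : B} (hu : Bdd u) (hus : IsSelfAdjoint u)
    (hc : IsSelfAdjoint c) : c * u = u * c := by
  have h1 := hu.sr_comm c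
  have h2 : IsSelfAdjoint (Complex.I • (c * u - u * c)) := by
    rw [IsSelfAdjoint, star_smul, star_sub, star_mul, star_mul, hus.star_eq, hc.star_eq]
    simp only [RCLike.star_def, Complex.conj_I, neg_smul]
    rw [← smul_neg, neg_sub]
  have h3 := sr_eq_norm_of_selfAdjoint h2
  rw [sr_smul, h1, mul_zero, norm_smul, Complex.norm_I, one_mul] at h3
  exact sub_eq_zero.mp (norm_eq_zero.mp h3.symm)

open scoped ComplexStarModule in
lemma Bdd.mem_center {u : B} (hu : Bdd u) : ∀ b : B, b * u = u * b := by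
  have hre : Bdd ((ℜ u : selfAdjoint B) : B) := by
    rw [realPart_apply_coe]
    have := (hu.add hu.star).smul ((2:ℂ)⁻¹)
    convert this using 1
    rw [← Complex.coe_smul]
    simp
  have him : Bdd ((ℑ u : selfAdjoint B) : B) := by
    rw [imaginaryPart_apply_coe]
    have := ((hu.add (hu.star.smul (-1))).smul ((2:ℂ)⁻¹)).smul (-Complex.I)
    convert this using 1
    rw [← Complex.coe_smul]
    simp [sub_eq_add_neg]
  have key : ∀ v : B, Bdd v → IsSelfAdjoint v → ∀ b : B, b * v = v * b := by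
    intro v hv hvs b
    have h1 := hv.commute_of_selfAdjoint hvs (ℜ b).2
    have h2 := hv.commute_of_selfAdjoint hvs (ℑ b).2
    rw [← realPart_add_I_smul_imaginaryPart b, add_mul, mul_add, h1, smul_mul_assoc, h2,
      mul_smul_comm]
  intro b
  have h1 := key _ hre (ℜ u).2 b
  have h2 := key _ him (ℑ u).2 b
  rw [← realPart_add_I_smul_imaginaryPart u, mul_add, add_mul, h1, mul_smul_comm, h2,
    smul_mul_assoc]

end Center

section Comm

set_option linter.unusedSectionVars false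

open WeakDual

/-- the centre, as a star subalgebra -/
def zc (A : Type*) [CStarAlgebra A] : StarSubalgebra ℂ A :=
  { Subalgebra.center ℂ A with star_mem' := fun ha => Set.star_mem_center ha }

variable {A : Type*} [CStarAlgebra A]

lemma mem_zc {a : A} : a ∈ zc A ↔ ∀ b : A, b * a = a * b := Subalgebra.mem_center_iff (R := ℂ)

lemma zc_comm (z : zc A) (b : A) : b * (z : A) = (z : A) * b := mem_zc.mp z.2 b

instance zc_isClosed : IsClosed (zc A : Set A) := by
  have h : (zc A : Set A) = Set.centralizer Set.univ := by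
    rw [Set.centralizer_univ]
    rfl
  rw [h]
  exact Set.isClosed_centralizer _

noncomputable instance zc_comm_inst : CommCStarAlgebra (zc A) :=
  { StarSubalgebra.cstarAlgebra (zc A) with
    mul_comm := fun x y => Subtype.ext (mem_zc.mp y.2 x) }

/-- the bicommutant of an element -/
def Ca (a : A) : Subalgebra ℂ A := Subalgebra.centralizer ℂ (Set.centralizer {a})

lemma mem_Ca_self (a : A) : a ∈ Ca a := by
  rw [Ca, Subalgebra.mem_centralizer_iff]
  intro g hg
  exact (Set.mem_centralizer_iff.mp hg a rfl).symm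

lemma zc_mem_Ca (a : A) (z : zc A) : (z : A) ∈ Ca a := by
  rw [Ca, Subalgebra.mem_centralizer_iff]
  intro g _
  exact zc_comm z g

lemma Ca_isClosed (a : A) : IsClosed (Ca a : Set A) := by
  rw [Ca, Subalgebra.coe_centralizer]
  exact Set.isClosed_centralizer _

lemma Ca_comm (a : A) (x y : Ca a) : x * y = y * x := by
  apply Subtype.ext
  exact Set.centralizer_centralizer_comm_of_comm (S := {a})
    (by rintro x rfl y rfl; rfl) x.1 x.2 y.1 y.2

noncomputable instance Ca_normedCommRing (a : A) : NormedCommRing (Ca a) :=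
  { (inferInstance : NormedRing (Ca a)) with mul_comm := Ca_comm a }

instance Ca_complete (a : A) : CompleteSpace (Ca a) := (Ca_isClosed a).completeSpace_coe

lemma Ca_spectralRadius (a : A) (w : Ca a) : spectralRadius ℂ w = spectralRadius ℂ (w : A) := by
  have h1 := spectrum.pow_nnnorm_pow_one_div_tendsto_nhds_spectralRadius w
  have h2 := spectrum.pow_nnnorm_pow_one_div_tendsto_nhds_spectralRadius (w : A)
  exact tendsto_nhds_unique h1 h2

/-- inclusion of the centre -/
def incl (a : A) : zc A →ₐ[ℂ] Ca a where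
  toFun z := ⟨z, zc_mem_Ca a z⟩
  map_one' := rfl
  map_mul' _ _ := rfl
  map_zero' := rfl
  map_add' _ _ := rfl
  commutes' _ := rfl

/-- restriction of characters -/
noncomputable def res {a : A} (φ : characterSpace ℂ (Ca a)) : characterSpace ℂ (zc A) :=
  CharacterSpace.equivAlgHom.symm ((CharacterSpace.equivAlgHom φ).comp (incl a))

lemma incl_coe (a : A) (z : zc A) : ((incl a z : Ca a) : A) = z := rfl

lemma res_apply {a : A} (φ : characterSpace ℂ (Ca a)) (z : zc A) :
    res φ z = φ (incl a z) := rfl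

/-- the joint spectrum of an element and the centre -/
def JS (a : A) : Set (ℂ × characterSpace ℂ (zc A)) :=
  Set.range fun φ : characterSpace ℂ (Ca a) => (φ ⟨a, mem_Ca_self a⟩, res φ)

variable [Nontrivial A]

lemma char_norm_le {a : A} (φ : characterSpace ℂ (Ca a)) (w : Ca a) : ‖φ w‖ ≤ sr (w : A) := by
  have h1 : φ w ∈ spectrum ℂ w := AlgHom.apply_mem_spectrum φ w
  have h2 : (‖φ w‖₊ : ℝ≥0∞) ≤ spectralRadius ℂ w :=
    le_iSup₂ (f := fun (k : ℂ) (_ : k ∈ spectrum ℂ w) => (‖k‖₊ : ℝ≥0∞)) _ h1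
  rw [Ca_spectralRadius] at h2
  have := ENNReal.toReal_mono (spectralRadius_ne_top _) h2
  simpa [sr] using this

lemma exists_char {a : A} (w : Ca a) : ∃ φ : characterSpace ℂ (Ca a), ‖φ w‖ = sr (w : A) := by
  obtain ⟨μ, hμ, h⟩ := spectrum.exists_nnnorm_eq_spectralRadius w
  obtain ⟨φ, hφ⟩ := WeakDual.CharacterSpace.mem_spectrum_iff_exists.mp hμ
  refine ⟨φ, ?_⟩
  rw [hφ, sr, ← Ca_spectralRadius, ← h]
  simp

lemma JS_add_le {a : A} {p : ℂ × characterSpace ℂ (zc A)} (hp : p ∈ JS a) (l : ℂ) (z : zc A) :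
    ‖p.1 + l * p.2 z‖ ≤ sr (a + l • (z : A)) := by
  obtain ⟨φ, rfl⟩ := hp
  have := char_norm_le φ (⟨a, mem_Ca_self a⟩ + l • incl a z)
  simpa [res_apply, incl_coe] using this

lemma sr_add_le {a : A} (l : ℂ) (z : zc A) {K : ℝ}
    (h : ∀ p ∈ JS a, ‖p.1 + l * p.2 z‖ ≤ K) : sr (a + l • (z : A)) ≤ K := by
  obtain ⟨φ, hφ⟩ := exists_char (⟨a, mem_Ca_self a⟩ + l • incl a z : Ca a)
  have h1 := h _ ⟨φ, rfl⟩
  have h2 : sr (a + l • (z : A)) = ‖φ (⟨a, mem_Ca_self a⟩ + l • incl a z)‖ := hφ.symm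
  rw [h2]
  simpa [res_apply] using h1

lemma JS_mul_le {a : A} {p : ℂ × characterSpace ℂ (zc A)} (hp : p ∈ JS a) (z : zc A) :
    ‖p.2 z‖ * ‖p.1‖ ≤ sr ((z : A) * a) := by
  obtain ⟨φ, rfl⟩ := hp
  have := char_norm_le φ (incl a z * ⟨a, mem_Ca_self a⟩)
  simpa [res_apply, incl_coe] using this

lemma sr_mul_le {a : A} (z : zc A) {K : ℝ}
    (h : ∀ p ∈ JS a, ‖p.2 z‖ * ‖p.1‖ ≤ K) : sr ((z : A) * a) ≤ K := by
  obtain ⟨φ, hφ⟩ := exists_char (incl a z * ⟨a, mem_Ca_self a⟩ : Ca a)
  have h1 := h _ ⟨φ, rfl⟩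
  have h2 : sr ((z : A) * a) = ‖φ (incl a z * ⟨a, mem_Ca_self a⟩)‖ := hφ.symm
  rw [h2]
  simpa [res_apply] using h1

lemma JS_norm_le {a : A} {p : ℂ × characterSpace ℂ (zc A)} (hp : p ∈ JS a) :
    ‖p.1‖ ≤ sr a := by
  have := JS_add_le hp 0 0
  simpa using this

lemma char_le_norm (x : characterSpace ℂ (zc A)) (z : zc A) : ‖x z‖ ≤ ‖(z : A)‖ := by
  have h1 : x z ∈ spectrum ℂ z := AlgHom.apply_mem_spectrum x z
  have h2 : ‖x z‖ ≤ ‖z‖ := spectrum.norm_le_norm_of_mem h1
  exact h2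

/-- multiplying by a central contraction does not increase the spectral radius -/
lemma sr_mul_le_of_norm_le {a : A} (z : zc A) (hz : ‖(z : A)‖ ≤ 1) : sr ((z : A) * a) ≤ sr a := by
  apply sr_mul_le
  intro p hp
  calc ‖p.2 z‖ * ‖p.1‖ ≤ 1 * sr a := by
        gcongr
        · exact (char_le_norm p.2 z).trans hz
        · exact JS_norm_le hp
    _ = sr a := one_mul _

/-- central elements have the bounded perturbation property -/
lemma sr_add_central (z : zc A) (b : A) : sr ((z : A) + b) ≤ sr (z : A) + sr b := by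
  have h := sr_add_le (a := b) 1 z (K := sr (z : A) + sr b) (by
    intro p hp
    calc ‖p.1 + 1 * p.2 z‖ ≤ ‖p.1‖ + ‖p.2 z‖ := by
          rw [one_mul]; exact norm_add_le _ _
      _ ≤ sr b + sr (z : A) := by
          gcongr
          · exact JS_norm_le hp
          · have h1 : p.2 z ∈ spectrum ℂ z := AlgHom.apply_mem_spectrum p.2 z
            rw [StarSubalgebra.spectrum_eq] at h1
            exact norm_le_sr h1
      _ = _ := by ring)
  rw [one_smul, add_comm] at h
  exact h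

/-- the central element with a given Gelfand transform -/
noncomputable def zel (F : C(characterSpace ℂ (zc A), ℂ)) : zc A :=
  (gelfandStarTransform (zc A)).symm F

lemma zel_apply (F : C(characterSpace ℂ (zc A), ℂ)) (x : characterSpace ℂ (zc A)) :
    x (zel F) = F x := by
  have h : gelfandStarTransform (zc A) (zel F) = F := (gelfandStarTransform (zc A)).apply_symm_apply F
  conv_rhs => rw [← h]
  rfl

lemma zel_norm (F : C(characterSpace ℂ (zc A), ℂ)) {K : ℝ} (hK : 0 ≤ K) (h : ∀ x, ‖F x‖ ≤ K) :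
    ‖((zel F : zc A) : A)‖ ≤ K := by
  have h1 : ‖zel F‖ ≤ K := by
    have h2 : ‖gelfandStarTransform (zc A) (zel F)‖ = ‖zel F‖ :=
      StarAlgEquiv.norm_map (gelfandStarTransform (zc A)) (zel F)
    rw [← h2]
    have h3 : gelfandStarTransform (zc A) (zel F) = F :=
      (gelfandStarTransform (zc A)).apply_symm_apply F
    rw [h3, ContinuousMap.norm_le _ hK]
    exact h
  exact h1

end Comm

section Commutative

variable {X Y : Type*} [TopologicalSpace X] [CompactSpace X] [TopologicalSpace Y] [CompactSpace Y]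

/-- a unital contraction between algebras of continuous functions is positive -/
lemma pos_of_contraction (U : C(X, ℂ) →ₗ[ℂ] C(Y, ℂ)) (hU : ∀ f, ‖U f‖ ≤ ‖f‖) (h1 : U 1 = 1)
    (f : C(X, ℂ)) (hf : ∀ x, (f x).im = 0 ∧ 0 ≤ (f x).re) (y : Y) :
    (U f y).im = 0 ∧ 0 ≤ (U f y).re := by
  set w := U f y with hw
  set c := ‖f‖ with hc
  have hc0 : 0 ≤ c := norm_nonneg f
  have hfc : ∀ x, (f x).re ≤ c := fun x => by
    calc (f x).re ≤ ‖f x‖ := Complex.re_le_norm _
      _ ≤ c := f.norm_coe_le_norm x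
  constructor
  · by_contra him
    have key : ∀ t : ℝ, w.re ^ 2 + (w.im - t) ^ 2 ≤ c ^ 2 + t ^ 2 := by
      intro t
      have h2 : ‖f - ((t : ℂ) * Complex.I) • (1 : C(X, ℂ))‖ ≤ √(c ^ 2 + t ^ 2) := by
        rw [ContinuousMap.norm_le _ (Real.sqrt_nonneg _)]
        intro x
        apply Real.le_sqrt_of_sq_le
        rw [Complex.sq_norm, Complex.normSq_apply]
        have hx := hf x
        have hx2 := hfc x
        simp [hx.1]
        nlinarith
      have h3 : ‖w - (t : ℂ) * Complex.I‖ ≤ √(c ^ 2 + t ^ 2) := by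
        have h4 := (U (f - ((t : ℂ) * Complex.I) • (1 : C(X, ℂ)))).norm_coe_le_norm y
        have h5 := hU (f - ((t : ℂ) * Complex.I) • (1 : C(X, ℂ)))
        have h6 : U (f - ((t : ℂ) * Complex.I) • (1 : C(X, ℂ))) y = w - (t : ℂ) * Complex.I := by
          rw [map_sub, map_smul, h1]
          simp [hw]
        rw [h6] at h4
        linarith
      have h7 : ‖w - (t : ℂ) * Complex.I‖ ^ 2 ≤ c ^ 2 + t ^ 2 := by
        have := pow_le_pow_left₀ (norm_nonneg _) h3 2
        rwa [Real.sq_sqrt (by positivity)] at this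
      rw [Complex.sq_norm, Complex.normSq_apply] at h7
      simp at h7
      nlinarith
    have h8 := key (-(c ^ 2 + 1) / (2 * w.im))
    have h9 : w.im * (-(c ^ 2 + 1) / (2 * w.im)) = -(c ^ 2 + 1) / 2 := by
      field_simp
    nlinarith [sq_nonneg w.re, sq_nonneg w.im]
  · have h2 : ‖(c : ℂ) • (1 : C(X, ℂ)) - f‖ ≤ c := by
      rw [ContinuousMap.norm_le _ hc0]
      intro x
      have hx := hf x
      have hx2 := hfc x
      have h3 : ((c : ℂ) • (1 : C(X, ℂ)) - f) x = ((c - (f x).re : ℝ) : ℂ) := by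
        apply Complex.ext <;> simp [hx.1]
      rw [h3, Complex.norm_real, Real.norm_eq_abs, abs_of_nonneg (by linarith)]
      linarith
    have h4 := (U ((c : ℂ) • (1 : C(X, ℂ)) - f)).norm_coe_le_norm y
    have h5 := hU ((c : ℂ) • (1 : C(X, ℂ)) - f)
    have h6 : U ((c : ℂ) • (1 : C(X, ℂ)) - f) y = (c : ℂ) - w := by
      rw [map_sub, map_smul, h1]
      simp [hw]
    rw [h6] at h4
    have h7 : ((c : ℂ) - w).re ≤ ‖(c : ℂ) - w‖ := Complex.re_le_norm _
    simp at h7
    linarith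

lemma mul_of_isometry_CX (U : C(X, ℂ) ≃ₗ[ℂ] C(Y, ℂ)) (hU : ∀ f, ‖U f‖ = ‖f‖) (h1 : U 1 = 1)
    (f h : C(X, ℂ)) : U (f * h) = U f * U h := by
  have hpos : ∀ f : C(X, ℂ), (∀ x, (f x).im = 0 ∧ 0 ≤ (f x).re) →
      ∀ y, (U f y).im = 0 ∧ 0 ≤ (U f y).re :=
    fun f hf y => pos_of_contraction U.toLinearMap (fun f => (hU f).le) h1 f hf y
  have hposi : ∀ g : C(Y, ℂ), (∀ y, (g y).im = 0 ∧ 0 ≤ (g y).re) →
      ∀ x, (U.symm g x).im = 0 ∧ 0 ≤ (U.symm g x).re := by
    intro g hg x
    apply pos_of_contraction U.symm.toLinearMap _ _ g hg x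
    · intro g
      have := hU (U.symm g)
      rw [U.apply_symm_apply] at this
      exact this.ge
    · have := U.symm_apply_apply 1
      rw [h1] at this
      exact this
  -- real functions
  have hreal : ∀ f : C(X, ℂ), (∀ x, (f x).im = 0) → ∀ y, (U f y).im = 0 := by
    intro f hf y
    have h2 := hpos ((‖f‖ : ℂ) • (1 : C(X, ℂ)) + f) (by
      intro x
      have hx := hf x
      refine ⟨by simp [hx], ?_⟩
      have h3 : -(f x).re ≤ ‖f‖ := by
        calc -(f x).re ≤ |(f x).re| := neg_le_abs _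
          _ ≤ ‖f x‖ := Complex.abs_re_le_norm _
          _ ≤ ‖f‖ := f.norm_coe_le_norm x
      simp
      linarith) y
    rw [map_add, map_smul, h1] at h2
    simpa using h2.1
  have habs : ∀ f : C(X, ℂ), (∀ x, (f x).im = 0) → ∀ y,
      ∃ g : C(X, ℂ), (∀ x, g x = (|(f x).re - (U f y).re| : ℝ)) ∧ U g y = 0 := by
    intro f hf y
    set c := (U f y).re with hc
    let g : C(X, ℂ) := ⟨fun x => ((|(f x).re - c| : ℝ) : ℂ), by fun_prop⟩
    let k : C(Y, ℂ) := ⟨fun y' => ((|(U f y').re - c| : ℝ) : ℂ), by fun_prop⟩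
    refine ⟨g, fun x => rfl, ?_⟩
    have hU' : ∀ y', (U f y').im = 0 := hreal f hf
    -- k ∓ (U f - c) ≥ 0
    have hk1 := hposi (k - (U f - (c : ℂ) • 1)) (by
      intro y'
      refine ⟨by simp [k, hU' y'], ?_⟩
      have := le_abs_self ((U f y').re - c)
      simp [k]
      linarith)
    have hk2 := hposi (k + (U f - (c : ℂ) • 1)) (by
      intro y'
      refine ⟨by simp [k, hU' y'], ?_⟩
      have := neg_le_abs ((U f y').re - c)
      simp [k]
      linarith)
    have hUs1 : U.symm 1 = 1 := by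
      have := U.symm_apply_apply 1
      rw [h1] at this
      exact this
    have hkg : ∀ x, ((U.symm k - g) x).im = 0 ∧ 0 ≤ ((U.symm k - g) x).re := by
      intro x
      have h3 := hk1 x
      have h4 := hk2 x
      rw [map_sub, map_sub, map_smul, hUs1, U.symm_apply_apply] at h3
      rw [map_add, map_sub, map_smul, hUs1, U.symm_apply_apply] at h4
      simp [hf x] at h3 h4
      refine ⟨by simp [g, h3.1], ?_⟩
      simp [g]
      apply abs_le.mpr
      constructor <;> linarith [h3.2, h4.2]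
    have h5 := hpos _ hkg y
    rw [map_sub, U.apply_symm_apply] at h5
    have h6 := hpos g (by
      intro x
      refine ⟨by simp [g], ?_⟩
      simp [g]) y
    have h7 : k y = 0 := by simp [k, hc]
    simp [h7] at h5
    apply Complex.ext
    · simp; linarith [h5.2, h6.2]
    · simp; exact h6.1
  have hmulreal : ∀ f h : C(X, ℂ), (∀ x, (f x).im = 0) → (∀ x, (h x).im = 0) →
      U (f * h) = U f * U h := by
    intro f h hf hh
    ext y
    obtain ⟨g, hg, hgy⟩ := habs f hf y
    set c := (U f y).re with hc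
    have hhM : ∀ x, |(h x).re| ≤ ‖h‖ := fun x =>
      (Complex.abs_re_le_norm _).trans (h.norm_coe_le_norm x)
    have hb : ∀ x, |((f x).re - c) * (h x).re| ≤ ‖h‖ * |(f x).re - c| := by
      intro x
      rw [abs_mul, mul_comm]
      exact mul_le_mul_of_nonneg_right (hhM x) (abs_nonneg _)
    have h3 := hpos ((‖h‖ : ℂ) • g - (f - (c : ℂ) • 1) * h) (by
      intro x
      refine ⟨by simp [hg x, hf x, hh x], ?_⟩
      have := le_abs_self (((f x).re - c) * (h x).re)
      have := hb x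
      simp [hg x, hf x, hh x]
      linarith) y
    have h4 := hpos ((‖h‖ : ℂ) • g + (f - (c : ℂ) • 1) * h) (by
      intro x
      refine ⟨by simp [hg x, hf x, hh x], ?_⟩
      have := neg_le_abs (((f x).re - c) * (h x).re)
      have := hb x
      simp [hg x, hf x, hh x]
      linarith) y
    have h5 : (f - (c : ℂ) • 1) * h = f * h - (c : ℂ) • h := by
      rw [sub_mul, smul_mul_assoc, one_mul]
    rw [h5, map_sub, map_smul, map_sub, map_smul] at h3
    rw [h5, map_add, map_smul, map_sub, map_smul] at h4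
    simp [hgy] at h3 h4
    have hfy : U f y = (c : ℂ) := by
      apply Complex.ext
      · simp [hc]
      · simp [hreal f hf y]
    rw [ContinuousMap.mul_apply, hfy]
    apply Complex.ext
    · simp
      linarith [h3.2, h4.2]
    · simp
      linarith [h3.1, h4.1]
  -- complex functions
  let re' : C(X, ℂ) → C(X, ℂ) := fun f => ⟨fun x => ((f x).re : ℂ), by fun_prop⟩
  let im' : C(X, ℂ) → C(X, ℂ) := fun f => ⟨fun x => ((f x).im : ℂ), by fun_prop⟩
  have hdec : ∀ f : C(X, ℂ), f = re' f + Complex.I • im' f := by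
    intro f
    ext x
    simp [re', im', mul_comm Complex.I]
  have hre : ∀ f : C(X, ℂ), ∀ x, (re' f x).im = 0 := fun f x => by simp [re']
  have him : ∀ f : C(X, ℂ), ∀ x, (im' f x).im = 0 := fun f x => by simp [im']
  rw [hdec f, hdec h]
  simp only [add_mul, mul_add, map_add, smul_mul_assoc, mul_smul_comm, map_smul,
    hmulreal _ _ (hre f) (hre h), hmulreal _ _ (hre f) (him h), hmulreal _ _ (him f) (hre h),
    hmulreal _ _ (him f) (him h)]

/-- a unital linear isometry between commutative C*-algebras is multiplicative -/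
lemma mul_of_isometry {R S : Type*} [CommCStarAlgebra R] [CommCStarAlgebra S] (U : R ≃ₗ[ℂ] S)
    (hU : ∀ z, ‖U z‖ = ‖z‖) (h1 : U 1 = 1) (x y : R) : U (x * y) = U x * U y := by
  let GR := gelfandStarTransform R
  let GS := gelfandStarTransform S
  let V : C(WeakDual.characterSpace ℂ R, ℂ) ≃ₗ[ℂ] C(WeakDual.characterSpace ℂ S, ℂ) :=
    (GR.symm.toAlgEquiv.toLinearEquiv.trans U).trans GS.toAlgEquiv.toLinearEquiv
  have hV : ∀ f, V f = GS (U (GR.symm f)) := fun f => rfl
  have h2 := mul_of_isometry_CX V (by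
    intro f
    rw [hV]
    have h3 : ‖GS (U (GR.symm f))‖ = ‖U (GR.symm f)‖ := StarAlgEquiv.norm_map GS _
    have h4 : ‖GR.symm f‖ = ‖f‖ := StarAlgEquiv.norm_map GR.symm f
    rw [h3, hU, h4]) (by rw [hV]; simp [h1]) (GR x) (GR y)
  rw [← map_mul, hV, hV, hV, GR.symm_apply_apply, GR.symm_apply_apply, GR.symm_apply_apply,
    ← map_mul] at h2
  exact GS.injective h2

end Commutative

section Main

set_option linter.unusedSectionVars false

open WeakDual

variable {A B : Type*} [CStarAlgebra A] [CStarAlgebra B] [Nontrivial A] [Nontrivial B]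

/-- a spectral isometry maps the centre into the centre -/
lemma map_center (T : A ≃ₗ[ℂ] B) (hr : ∀ x, sr (T x) = sr x) (z : zc A) :
    T (z : A) ∈ zc B := by
  rw [mem_zc]
  apply Bdd.mem_center
  refine ⟨sr (z : A) + 1, fun b => ?_⟩
  obtain ⟨a, rfl⟩ := T.surjective b
  rw [← map_add, hr, hr]
  have h1 := sr_add_central z a
  have h2 := sr_nonneg (z : A)
  have h3 := sr_nonneg a
  nlinarith

lemma symm_sr {T : A ≃ₗ[ℂ] B} (hr : ∀ x, sr (T x) = sr x) (y : B) : sr (T.symm y) = sr y := by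
  have := hr (T.symm y)
  rw [T.apply_symm_apply] at this
  exact this.symm

/-- restriction to the centres -/
noncomputable def cen (T : A ≃ₗ[ℂ] B) (hr : ∀ x, sr (T x) = sr x) : zc A ≃ₗ[ℂ] zc B where
  toFun z := ⟨T z, map_center T hr z⟩
  map_add' x y := Subtype.ext (map_add T (x : A) (y : A))
  map_smul' c x := Subtype.ext (map_smul T c (x : A))
  invFun w := ⟨T.symm w, map_center T.symm (symm_sr hr) w⟩
  left_inv z := Subtype.ext (T.symm_apply_apply (z : A))
  right_inv w := Subtype.ext (T.apply_symm_apply (w : B))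

lemma cen_coe (T : A ≃ₗ[ℂ] B) (hr : ∀ x, sr (T x) = sr x) (z : zc A) :
    ((cen T hr z : zc B) : B) = T z := rfl

lemma zc_normal (z : zc A) : IsStarNormal (z : A) :=
  ⟨(mem_zc.mp z.2 (star (z : A)))⟩

lemma cen_norm (T : A ≃ₗ[ℂ] B) (hr : ∀ x, sr (T x) = sr x) (z : zc A) :
    ‖cen T hr z‖ = ‖z‖ := by
  have h1 := zc_normal z
  have h2 := zc_normal (cen T hr z)
  have h3 := sr_eq_norm_of_normal (z : A)
  have h4 := sr_eq_norm_of_normal ((cen T hr z : zc B) : B)
  rw [cen_coe, hr, h3] at h4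
  exact h4.symm

lemma cen_one (T : A ≃ₗ[ℂ] B) (hr : ∀ x, sr (T x) = sr x) (h1 : T 1 = 1) : cen T hr 1 = 1 :=
  Subtype.ext h1

lemma cen_mul (T : A ≃ₗ[ℂ] B) (hr : ∀ x, sr (T x) = sr x) (h1 : T 1 = 1) (x y : zc A) :
    cen T hr (x * y) = cen T hr x * cen T hr y :=
  mul_of_isometry (cen T hr) (cen_norm T hr) (cen_one T hr h1) x y

/-- the restriction to the centres as an algebra homomorphism -/
noncomputable def cenAlg (T : A ≃ₗ[ℂ] B) (hr : ∀ x, sr (T x) = sr x) (h1 : T 1 = 1) :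
    zc A →ₐ[ℂ] zc B :=
  AlgHom.ofLinearMap (cen T hr).toLinearMap (cen_one T hr h1) (cen_mul T hr h1)

/-- pull back of characters -/
noncomputable def pull (T : A ≃ₗ[ℂ] B) (hr : ∀ x, sr (T x) = sr x) (h1 : T 1 = 1)
    (ψ : characterSpace ℂ (zc B)) : characterSpace ℂ (zc A) :=
  CharacterSpace.equivAlgHom.symm ((CharacterSpace.equivAlgHom ψ).comp (cenAlg T hr h1))

lemma pull_apply (T : A ≃ₗ[ℂ] B) (hr : ∀ x, sr (T x) = sr x) (h1 : T 1 = 1)
    (ψ : characterSpace ℂ (zc B)) (z : zc A) : pull T hr h1 ψ z = ψ (cen T hr z) := rfl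

lemma continuous_eval (z : zc A) : Continuous fun x : characterSpace ℂ (zc A) => x z :=
  (gelfandStarTransform (zc A) z).continuous

/-- local bound on the spectral radius at the character `χ` -/
def Loc (χ : characterSpace ℂ (zc A)) (a : A) (K : ℝ) : Prop :=
  ∃ z : zc A, χ z = 1 ∧ ‖(z : A)‖ ≤ 1 ∧ sr ((z : A) * a) < K

/-- a bump function as a central element -/
lemma exists_bump (χ : characterSpace ℂ (zc A)) (z₀ : zc A) (hz₀ : χ z₀ = 1) {δ : ℝ}
    (hδ : 0 < δ) : ∃ z : zc A, χ z = 1 ∧ ‖(z : A)‖ ≤ 1 ∧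
      ∀ x : characterSpace ℂ (zc A), ∃ t : ℝ, x z = t ∧ 0 ≤ t ∧ t ≤ 1 ∧
        (t ≠ 0 → ‖x z₀ - 1‖ < δ) := by
  let F : C(characterSpace ℂ (zc A), ℂ) :=
    ⟨fun x => ((max 0 (1 - ‖x z₀ - 1‖ / δ) : ℝ) : ℂ), by
      have hev := continuous_eval z₀
      exact Complex.continuous_ofReal.comp (continuous_const.max
        (continuous_const.sub ((hev.sub continuous_const).norm.div_const δ)))⟩
  have hF : ∀ x, F x = ((max 0 (1 - ‖x z₀ - 1‖ / δ) : ℝ) : ℂ) := fun x => rfl
  have hF1 : ∀ x : characterSpace ℂ (zc A), max 0 (1 - ‖x z₀ - 1‖ / δ) ≤ 1 := by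
    intro x
    apply max_le (by norm_num)
    have : 0 ≤ ‖x z₀ - 1‖ / δ := by positivity
    linarith
  refine ⟨zel F, ?_, ?_, ?_⟩
  · rw [zel_apply, hF, hz₀]
    simp
  · apply zel_norm F (by norm_num)
    intro x
    rw [hF, Complex.norm_real, Real.norm_eq_abs, abs_of_nonneg (le_max_left _ _)]
    exact hF1 x
  · intro x
    refine ⟨max 0 (1 - ‖x z₀ - 1‖ / δ), ?_, le_max_left _ _, hF1 x, ?_⟩
    · rw [zel_apply, hF]
    · intro h
      by_contra h2
      apply h
      apply max_eq_left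
      push Not at h2
      have : 1 ≤ ‖x z₀ - 1‖ / δ := by rwa [le_div_iff₀ hδ, one_mul]
      linarith

/-- the local bound is transported by a unital spectral isometry -/
lemma Loc.transfer (T : A ≃ₗ[ℂ] B) (hr : ∀ x, sr (T x) = sr x) (h1 : T 1 = 1)
    (ψ : characterSpace ℂ (zc B)) {a : A} {K : ℝ} (h : Loc (pull T hr h1 ψ) a K) :
    Loc ψ (T a) K := by
  obtain ⟨z₀, hz₀, hz₀n, hs⟩ := h
  set s := sr ((z₀ : A) * a) with hsdef
  have hs0 : 0 ≤ s := sr_nonneg _
  set ρ := (s + K) / 2 with hρ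
  have hρs : s < ρ := by rw [hρ]; linarith
  have hρK : ρ < K := by rw [hρ]; linarith
  have hρ0 : 0 < ρ := hs0.trans_lt hρs
  set δ := (ρ - s) / ρ with hδ
  have hδ0 : 0 < δ := by rw [hδ]; exact div_pos (by linarith) hρ0
  have hδρ : ρ * (1 - δ) = s := by rw [hδ]; field_simp; ring
  obtain ⟨z, hz1, hzn, hz⟩ := exists_bump _ z₀ hz₀ hδ0
  set l₀ := sr a with hl₀
  have hl₀0 : 0 ≤ l₀ := sr_nonneg a
  -- the bound for `a + l z`
  have hb : ∀ l : ℂ, ‖l‖ = l₀ → sr (a + l • (z : A)) ≤ ρ + l₀ := by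
    intro l hl
    apply sr_add_le
    intro p hp
    obtain ⟨t, ht, ht0, ht1, htδ⟩ := hz p.2
    rw [ht]
    by_cases h0 : t = 0
    · rw [h0]
      simp only [Complex.ofReal_zero, mul_zero, add_zero]
      have := JS_norm_le hp
      linarith
    · have h2 := htδ h0
      have h3 : 1 - δ < ‖p.2 z₀‖ := by
        have h4 : ‖(1 : ℂ)‖ - ‖1 - p.2 z₀‖ ≤ ‖p.2 z₀‖ := by
          have := norm_sub_norm_le (1 : ℂ) (1 - p.2 z₀)
          rwa [sub_sub_cancel] at this
        rw [norm_one, norm_sub_rev] at h4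
        linarith
      have h5 := JS_mul_le hp z₀
      rw [← hsdef, ← hδρ] at h5
      have h7 : 0 ≤ 1 - δ := by
        have : 0 ≤ ρ * (1 - δ) := by rw [hδρ]; exact hs0
        exact nonneg_of_mul_nonneg_right this hρ0
      have h6 : ‖p.1‖ ≤ ρ := by
        by_contra hcon
        push Not at hcon
        nlinarith
      calc ‖p.1 + l * (t : ℂ)‖ ≤ ‖p.1‖ + ‖l * (t : ℂ)‖ := norm_add_le _ _
        _ = ‖p.1‖ + l₀ * t := by
            rw [norm_mul, hl, Complex.norm_real, Real.norm_eq_abs, abs_of_nonneg ht0]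
        _ ≤ ρ + l₀ := by nlinarith
  have hpz : ψ (cen T hr z) = 1 := by rw [← pull_apply T hr h1]; exact hz1
  set δ' := (K - ρ) / (2 * (l₀ + 1)) with hδ'
  have hδ'0 : 0 < δ' := by rw [hδ']; exact div_pos (by linarith) (by linarith)
  have hδ'K : l₀ * δ' ≤ (K - ρ) / 2 := by
    have h2 : (l₀ + 1) * δ' = (K - ρ) / 2 := by rw [hδ']; field_simp
    nlinarith
  obtain ⟨w, hw1, hwn, hw⟩ := exists_bump ψ (cen T hr z) hpz hδ'0
  refine ⟨w, hw1, hwn, ?_⟩
  have hfin : sr ((w : B) * T a) ≤ ρ + (K - ρ) / 2 := by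
    apply sr_mul_le
    intro p hp
    obtain ⟨t, ht, ht0, ht1, htδ⟩ := hw p.2
    rw [ht, Complex.norm_real, Real.norm_eq_abs, abs_of_nonneg ht0]
    by_cases h0 : t = 0
    · rw [h0, zero_mul]; linarith
    have h2 := htδ h0
    obtain ⟨t', ht', ht'0, ht'1, -⟩ := hz (pull T hr h1 p.2)
    rw [pull_apply] at ht'
    rw [ht'] at h2
    have h3 : 1 - δ' < t' := by
      have h4 : ((t' : ℂ) - 1) = ((t' - 1 : ℝ) : ℂ) := by push_cast; ring
      rw [h4, Complex.norm_real, Real.norm_eq_abs] at h2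
      have := (abs_lt.mp h2).1
      linarith
    have h5 : ‖p.1‖ ≤ ρ + (K - ρ) / 2 := by
      by_cases hp0 : p.1 = 0
      · rw [hp0, norm_zero]; linarith
      have hp0' : 0 < ‖p.1‖ := norm_pos_iff.mpr hp0
      set l : ℂ := ((l₀ / ‖p.1‖ : ℝ) : ℂ) * p.1 with hl
      have hln : ‖l‖ = l₀ := by
        rw [hl, norm_mul, Complex.norm_real, Real.norm_eq_abs,
          abs_of_nonneg (div_nonneg hl₀0 hp0'.le), div_mul_cancel₀ _ hp0'.ne']
      have h6 := JS_add_le hp l (cen T hr z)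
      rw [ht', cen_coe, ← map_smul, ← map_add, hr] at h6
      have h7 := h6.trans (hb l hln)
      have h8 : p.1 + l * (t' : ℂ) = ((1 + l₀ / ‖p.1‖ * t' : ℝ) : ℂ) * p.1 := by
        rw [hl]; push_cast; ring
      have h9 : 0 ≤ l₀ / ‖p.1‖ := div_nonneg hl₀0 hp0'.le
      rw [h8, norm_mul, Complex.norm_real, Real.norm_eq_abs,
        abs_of_nonneg (by positivity)] at h7
      have h10 : (1 + l₀ / ‖p.1‖ * t') * ‖p.1‖ = ‖p.1‖ + l₀ * t' := by
        field_simp
      rw [h10] at h7
      nlinarith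
    calc t * ‖p.1‖ ≤ 1 * (ρ + (K - ρ) / 2) := by
          gcongr
      _ = _ := one_mul _
  linarith

/-- `x` vanishes at the character `χ` -/
def Van (χ : characterSpace ℂ (zc A)) (x : A) : Prop :=
  ∀ ε > 0, ∃ z : zc A, χ z = 1 ∧ ‖(z : A)‖ ≤ 1 ∧ ‖(z : A) * x‖ < ε

/-- nested bumps -/
lemma exists_nested (χ : characterSpace ℂ (zc A)) (z₁ : zc A) (hz₁ : χ z₁ = 1) :
    ∃ z₂ c : zc A, χ z₂ = 1 ∧ ‖(z₂ : A)‖ ≤ 1 ∧ ‖(c : A)‖ ≤ 2 ∧ z₂ * (c * z₁) = z₂ := by
  let D : characterSpace ℂ (zc A) → ℝ := fun x => ‖x z₁ - 1‖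
  have hev := continuous_eval z₁
  have hD : Continuous D := (hev.sub continuous_const).norm
  let W : characterSpace ℂ (zc A) → ℝ := fun x => max 0 (min 1 (2 - 4 * D x))
  have hW : Continuous W := by
    simp only [W]
    fun_prop
  have hden : ∀ x : characterSpace ℂ (zc A), 0 < max (‖x z₁‖ ^ 2) (1 / 4) :=
    fun x => lt_max_of_lt_right (by norm_num)
  let C : C(characterSpace ℂ (zc A), ℂ) :=
    ⟨fun x => ((W x / max (‖x z₁‖ ^ 2) (1 / 4) : ℝ) : ℂ) * (starRingEnd ℂ) (x z₁), by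
      apply Continuous.mul
      · apply Complex.continuous_ofReal.comp
        apply hW.div ((hev.norm.pow 2).max continuous_const)
        intro x
        exact (hden x).ne'
      · exact Complex.continuous_conj.comp hev⟩
  let F : C(characterSpace ℂ (zc A), ℂ) :=
    ⟨fun x => ((max 0 (1 - 4 * D x) : ℝ) : ℂ), by fun_prop⟩
  have hC : ∀ x, C x = ((W x / max (‖x z₁‖ ^ 2) (1 / 4) : ℝ) : ℂ) * (starRingEnd ℂ) (x z₁) :=
    fun x => rfl
  have hF : ∀ x, F x = ((max 0 (1 - 4 * D x) : ℝ) : ℂ) := fun x => rfl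
  have hD0 : ∀ x, 0 ≤ D x := fun x => norm_nonneg _
  have hW0 : ∀ x, 0 ≤ W x := fun x => le_max_left _ _
  have hW1 : ∀ x, W x ≤ 1 := fun x => max_le (by norm_num) (min_le_left _ _)
  refine ⟨zel F, zel C, ?_, ?_, ?_, ?_⟩
  · rw [zel_apply, hF]
    simp [D, hz₁]
  · apply zel_norm F (by norm_num)
    intro x
    rw [hF, Complex.norm_real, Real.norm_eq_abs, abs_of_nonneg (le_max_left _ _)]
    apply max_le (by norm_num)
    have := hD0 x
    linarith
  · apply zel_norm C (by norm_num)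
    intro x
    rw [hC, norm_mul, Complex.norm_real, Real.norm_eq_abs,
      abs_of_nonneg (div_nonneg (hW0 x) (hden x).le), RCLike.norm_conj, div_mul_eq_mul_div,
      div_le_iff₀ (hden x)]
    have h1 : W x * ‖x z₁‖ ≤ 1 * ‖x z₁‖ := by
      gcongr
      exact hW1 x
    rcases le_total ‖x z₁‖ (1 / 2) with h | h
    · have h2 := le_max_right (‖x z₁‖ ^ 2) (1 / 4)
      linarith
    · have h2 := le_max_left (‖x z₁‖ ^ 2) (1 / 4)
      nlinarith
  · have hext : ∀ u v : zc A, (∀ x : characterSpace ℂ (zc A), x u = x v) → u = v := by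
      intro u v huv
      apply (gelfandStarTransform (zc A)).injective
      ext x
      exact huv x
    apply hext
    intro x
    rw [map_mul, map_mul, zel_apply, zel_apply, hF, hC]
    by_cases h0 : 1 / 4 ≤ D x
    · have : max 0 (1 - 4 * D x) = 0 := max_eq_left (by linarith)
      rw [this]
      simp
    · push Not at h0
      have hWx : W x = 1 := by
        simp only [W]
        rw [min_eq_left (by linarith)]
        norm_num
      have hn : 3 / 4 ≤ ‖x z₁‖ := by
        have h4 : ‖(1 : ℂ)‖ - ‖1 - x z₁‖ ≤ ‖x z₁‖ := by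
          have := norm_sub_norm_le (1 : ℂ) (1 - x z₁)
          rwa [sub_sub_cancel] at this
        rw [norm_one, norm_sub_rev] at h4
        simp only [D] at h0
        linarith
      have hmax : max (‖x z₁‖ ^ 2) (1 / 4) = ‖x z₁‖ ^ 2 := max_eq_left (by nlinarith)
      rw [hWx, hmax]
      have h5 : (starRingEnd ℂ) (x z₁) * x z₁ = ((‖x z₁‖ ^ 2 : ℝ) : ℂ) := by
        rw [mul_comm, Complex.mul_conj, Complex.normSq_eq_norm_sq]
      have h6 : ((‖x z₁‖ ^ 2 : ℝ) : ℂ) ≠ 0 := by
        apply Complex.ofReal_ne_zero.mpr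
        positivity
      rw [mul_assoc (((1 / ‖x z₁‖ ^ 2 : ℝ) : ℂ)), h5]
      have h7 : (((1 / ‖x z₁‖ ^ 2 : ℝ) : ℂ)) * ((‖x z₁‖ ^ 2 : ℝ) : ℂ) = 1 := by
        rw [← Complex.ofReal_mul]
        have : (1 / ‖x z₁‖ ^ 2) * ‖x z₁‖ ^ 2 = 1 := by
          field_simp
        rw [this]
        simp
      rw [h7, mul_one]

/-- local bounds do not see a summand that vanishes at the character -/
lemma Loc.add_van {χ : characterSpace ℂ (zc A)} {a x : A} {K : ℝ} (hx : Van χ x)
    (ha : Loc χ a K) : Loc χ (x + a) K := by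
  obtain ⟨z₀, hz₀, hz₀n, hs⟩ := ha
  obtain ⟨δ, hδ, husc⟩ := sr_usc _ hs
  obtain ⟨z₁, hz₁, hz₁n, hz₁x⟩ := hx (δ / 2) (by linarith)
  obtain ⟨z₂, c, hz₂, hz₂n, hc, hnest⟩ := exists_nested χ z₁ hz₁
  refine ⟨z₂ * z₀, ?_, ?_, ?_⟩
  · rw [map_mul, hz₂, hz₀, mul_one]
  · calc ‖((z₂ * z₀ : zc A) : A)‖ ≤ ‖(z₂ : A)‖ * ‖(z₀ : A)‖ := norm_mul_le _ _
      _ ≤ 1 * 1 := by gcongr
      _ = 1 := one_mul 1
  · set v : A := (z₀ : A) * ((c : A) * ((z₁ : A) * x)) with hv
    have hvn : ‖v‖ < δ := by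
      calc ‖v‖ ≤ ‖(z₀ : A)‖ * (‖(c : A)‖ * ‖(z₁ : A) * x‖) := by
            refine (norm_mul_le _ _).trans ?_
            gcongr
            exact norm_mul_le _ _
        _ ≤ 1 * (2 * ‖(z₁ : A) * x‖) := by gcongr
        _ < δ := by linarith
    have h1 := husc v hvn
    have h2 : ((z₂ * z₀ : zc A) : A) * (x + a) = (z₂ : A) * ((z₀ : A) * a + v) := by
      have h3 : (z₂ : A) * ((c : A) * (z₁ : A)) = (z₂ : A) := by
        have := congrArg (Subtype.val) hnest
        exact this
      have h4 : (z₂ : A) * (z₀ : A) = (z₀ : A) * (z₂ : A) := (zc_comm z₀ (z₂ : A))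
      have h5 : (z₂ : A) * v = (z₂ : A) * ((z₀ : A) * x) := by
        rw [hv, ← mul_assoc, h4, mul_assoc (z₀ : A) (z₂ : A), ← mul_assoc (c : A),
          ← mul_assoc (z₂ : A), h3, ← mul_assoc (z₂ : A), h4, mul_assoc]
      show ((z₂ : A) * (z₀ : A)) * (x + a) = _
      rw [mul_add, mul_add (z₂ : A), h5, mul_assoc, mul_assoc, add_comm]
    rw [h2]
    exact (sr_mul_le_of_norm_le z₂ hz₂n).trans_lt h1

lemma Loc.star {χ : characterSpace ℂ (zc A)} {a : A} {K : ℝ} (ha : Loc χ a K) :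
    Loc χ (star a) K := by
  obtain ⟨z, hz, hzn, hs⟩ := ha
  refine ⟨Star.star z, ?_, ?_, ?_⟩
  · rw [map_star, hz, star_one]
  · calc ‖((Star.star z : zc A) : A)‖ = ‖Star.star (z : A)‖ := rfl
      _ = ‖(z : A)‖ := norm_star _
      _ ≤ 1 := hzn
  · have h1 : ((Star.star z : zc A) : A) * Star.star a = Star.star ((z : A) * a) := by
      rw [star_mul]
      exact (zc_comm (Star.star z) (Star.star a)).symm
    rw [h1, sr_star]
    exact hs

/-- a selfadjoint element with arbitrarily small local spectral radius lies in every closed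
two-sided ideal containing the kernel of the character -/
lemma mem_of_loc {χ : characterSpace ℂ (zc A)} {h : A} (hsa : IsSelfAdjoint h)
    (hloc : ∀ K > 0, Loc χ h K) {J : TwoSidedIdeal A} (hJ : IsClosed (J : Set A))
    (hχ : ∀ z : zc A, χ z = 0 → (z : A) ∈ J) : h ∈ J := by
  have h1 : h ∈ closure (J : Set A) := by
    rw [Metric.mem_closure_iff]
    intro ε hε
    obtain ⟨z, hz, hzn, hs⟩ := hloc ε hε
    refine ⟨((1 - z : zc A) : A) * h, ?_, ?_⟩
    · apply TwoSidedIdeal.mul_mem_right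
      apply hχ
      rw [map_sub, map_one, hz, sub_self]
    · have h2 : h - ((1 - z : zc A) : A) * h = (z : A) * h := by
        show h - ((1 : A) - (z : A)) * h = _
        rw [sub_mul, one_mul, sub_sub_cancel]
      rw [dist_eq_norm, h2]
      have hn : IsStarNormal ((z : A) * h) := by
        constructor
        have c1 : ∀ (u : zc A) (b : A), Commute (u : A) b := fun u b => (zc_comm u b).symm
        have h3 : Star.star ((z : A) * h) = ((Star.star z : zc A) : A) * h := by
          rw [star_mul, hsa.star_eq]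
          exact zc_comm (Star.star z) h
        rw [h3]
        exact Commute.mul_left (c1 _ _) (Commute.mul_right (c1 z h).symm (Commute.refl h))
      rw [← sr_eq_norm_of_normal]
      exact hs
  rwa [hJ.closure_eq] at h1

end Main

/-- The Glimm ideal `G_m` of a C*-algebra `A` at an ideal `m` of its centre `Z(A)`: the closed
two-sided ideal of `A` generated by `m`, that is, the smallest closed two-sided ideal of `A`
containing `m`. -/
noncomputable def glimmIdeal {A : Type*} [CStarAlgebra A] (m : Ideal (Subalgebra.center ℂ A)) :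
    TwoSidedIdeal A :=
  sInf {J : TwoSidedIdeal A | IsClosed (J : Set A) ∧ ∀ z ∈ m, (z : A) ∈ J}

section Final

set_option linter.unusedSectionVars false

open WeakDual

/-- the two versions of the centre -/
def cEquiv (A : Type*) [CStarAlgebra A] : Subalgebra.center ℂ A ≃+* zc A where
  toFun z := ⟨z.1, z.2⟩
  invFun z := ⟨z.1, z.2⟩
  left_inv _ := rfl
  right_inv _ := rfl
  map_mul' _ _ := rfl
  map_add' _ _ := rfl

lemma exists_character {A : Type*} [CStarAlgebra A] (m : Ideal (Subalgebra.center ℂ A))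
    (hm : m.IsMaximal) : ∃ χ : characterSpace ℂ (zc A), ∀ z : Subalgebra.center ℂ A,
      z ∈ m ↔ χ (cEquiv A z) = 0 := by
  have hmax : (m.comap (cEquiv A).symm).IsMaximal :=
    Ideal.comap_isMaximal_of_equiv (cEquiv A).symm
  let m' := m.comap (cEquiv A).symm
  let χ := m'.toCharacterSpace
  have hle : m' ≤ RingHom.ker (CharacterSpace.equivAlgHom χ) := by
    intro z hz
    exact m'.toCharacterSpace_apply_eq_zero_of_mem hz
  have heq : m' = RingHom.ker (CharacterSpace.equivAlgHom χ) :=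
    hmax.eq_of_le (RingHom.ker_ne_top _) hle
  refine ⟨χ, fun z => ?_⟩
  have h1 : z ∈ m ↔ cEquiv A z ∈ m' := by
    simp [m']
  rw [h1, heq]
  rfl

/-- the kernel of a character as an ideal of the centre -/
noncomputable def kerIdeal {B : Type*} [CStarAlgebra B] (ψ : characterSpace ℂ (zc B)) :
    Ideal (Subalgebra.center ℂ B) :=
  RingHom.ker (((CharacterSpace.equivAlgHom ψ : zc B →ₐ[ℂ] ℂ) : zc B →+* ℂ).comp
    (cEquiv B : Subalgebra.center ℂ B →+* zc B))

lemma mem_kerIdeal {B : Type*} [CStarAlgebra B] (ψ : characterSpace ℂ (zc B))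
    (z : Subalgebra.center ℂ B) : z ∈ kerIdeal ψ ↔ ψ (cEquiv B z) = 0 := Iff.rfl

lemma kerIdeal_isMaximal {B : Type*} [CStarAlgebra B] (ψ : characterSpace ℂ (zc B)) :
    (kerIdeal ψ).IsMaximal := by
  apply RingHom.ker_isMaximal_of_surjective
  intro c
  refine ⟨algebraMap ℂ (Subalgebra.center ℂ B) c, ?_⟩
  have h1 : cEquiv B (algebraMap ℂ (Subalgebra.center ℂ B) c) = algebraMap ℂ (zc B) c := rfl
  show ψ (cEquiv B (algebraMap ℂ (Subalgebra.center ℂ B) c)) = c
  rw [h1]
  exact AlgHomClass.commutes ψ c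

variable {A B : Type*} [CStarAlgebra A] [CStarAlgebra B] [Nontrivial A] [Nontrivial B]

/-- elements of the Glimm ideal vanish at the character -/
lemma van_of_mem_glimm {m : Ideal (Subalgebra.center ℂ A)} {χ : characterSpace ℂ (zc A)}
    (hχ : ∀ z : Subalgebra.center ℂ A, z ∈ m → χ (cEquiv A z) = 0) {x : A}
    (hx : x ∈ glimmIdeal m) : Van χ x := by
  let J : TwoSidedIdeal A := TwoSidedIdeal.mk' {x | Van χ x}
    (by
      intro ε hε
      exact ⟨1, map_one χ, by simp, by simpa using hε⟩)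
    (by
      intro x y hx hy ε hε
      obtain ⟨z, hz, hzn, hzx⟩ := hx (ε / 2) (by linarith)
      obtain ⟨w, hw, hwn, hwy⟩ := hy (ε / 2) (by linarith)
      refine ⟨z * w, by rw [map_mul, hz, hw, mul_one], ?_, ?_⟩
      · calc ‖((z * w : zc A) : A)‖ ≤ ‖(z : A)‖ * ‖(w : A)‖ := norm_mul_le _ _
          _ ≤ 1 * 1 := by gcongr
          _ = 1 := one_mul 1
      · have h1 : ((z * w : zc A) : A) * (x + y) = (w : A) * ((z : A) * x)
            + (z : A) * ((w : A) * y) := by
          show ((z : A) * (w : A)) * (x + y) = _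
          rw [mul_add, mul_assoc (z : A) (w : A) y, ← mul_assoc (w : A) (z : A) x,
            zc_comm z (w : A)]
        rw [h1]
        calc ‖(w : A) * ((z : A) * x) + (z : A) * ((w : A) * y)‖
            ≤ ‖(w : A) * ((z : A) * x)‖ + ‖(z : A) * ((w : A) * y)‖ := norm_add_le _ _
          _ ≤ ‖(w : A)‖ * ‖(z : A) * x‖ + ‖(z : A)‖ * ‖(w : A) * y‖ :=
              add_le_add (norm_mul_le _ _) (norm_mul_le _ _)
          _ ≤ 1 * ‖(z : A) * x‖ + 1 * ‖(w : A) * y‖ := by gcongr
          _ < ε := by linarith)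
    (by
      intro x hx ε hε
      obtain ⟨z, hz, hzn, hzx⟩ := hx ε hε
      exact ⟨z, hz, hzn, by rwa [mul_neg, norm_neg]⟩)
    (by
      intro x y hy ε hε
      obtain ⟨z, hz, hzn, hzx⟩ := hy (ε / (‖x‖ + 1)) (by positivity)
      refine ⟨z, hz, hzn, ?_⟩
      have h1 : (z : A) * (x * y) = x * ((z : A) * y) := by
        rw [← mul_assoc, ← zc_comm z x, mul_assoc]
      rw [h1]
      have h2 := norm_mul_le x ((z : A) * y)
      rw [lt_div_iff₀ (by positivity)] at hzx
      nlinarith [norm_nonneg x, norm_nonneg ((z : A) * y)])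
    (by
      intro x y hx ε hε
      obtain ⟨z, hz, hzn, hzx⟩ := hx (ε / (‖y‖ + 1)) (by positivity)
      refine ⟨z, hz, hzn, ?_⟩
      rw [← mul_assoc]
      have h2 := norm_mul_le ((z : A) * x) y
      rw [lt_div_iff₀ (by positivity)] at hzx
      nlinarith [norm_nonneg y, norm_nonneg ((z : A) * x)])
  have hJmem : ∀ x, x ∈ J ↔ Van χ x := fun x => TwoSidedIdeal.mem_mk' _ _ _ _ _ _ x
  have hJ1 : IsClosed (J : Set A) := by
    rw [← closure_subset_iff_isClosed]
    intro x hx
    rw [SetLike.mem_coe, hJmem]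
    intro ε hε
    obtain ⟨y, hy, hxy⟩ := Metric.mem_closure_iff.mp hx (ε / 2) (by linarith)
    rw [SetLike.mem_coe, hJmem] at hy
    obtain ⟨z, hz, hzn, hzy⟩ := hy (ε / 2) (by linarith)
    refine ⟨z, hz, hzn, ?_⟩
    have h1 : (z : A) * x = (z : A) * (x - y) + (z : A) * y := by
      rw [mul_sub, sub_add_cancel]
    rw [h1]
    rw [dist_eq_norm] at hxy
    calc ‖(z : A) * (x - y) + (z : A) * y‖ ≤ ‖(z : A) * (x - y)‖ + ‖(z : A) * y‖ :=
          norm_add_le _ _
      _ ≤ ‖(z : A)‖ * ‖x - y‖ + ‖(z : A) * y‖ := by gcongr; exact norm_mul_le _ _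
      _ ≤ 1 * ‖x - y‖ + ‖(z : A) * y‖ := by gcongr
      _ < ε := by linarith
  have hJ2 : ∀ z ∈ m, (z : A) ∈ J := by
    intro y hy
    rw [hJmem]
    intro ε hε
    have hy0 := hχ y hy
    have h10 : χ (1 - cEquiv A y) = 1 := by rw [map_sub, map_one, hy0, sub_zero]
    obtain ⟨z, hz, hzn, hzx⟩ := exists_bump χ (1 - cEquiv A y) h10 (δ := ε / 2) (by linarith)
    refine ⟨z, hz, hzn, ?_⟩
    have h2 : (z : A) * (y : A) = ((z * cEquiv A y : zc A) : A) := rfl
    have h3 : ‖z * cEquiv A y‖ ≤ ε / 2 := by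
      have h4 : ‖gelfandStarTransform (zc A) (z * cEquiv A y)‖ = ‖z * cEquiv A y‖ :=
        StarAlgEquiv.norm_map (gelfandStarTransform (zc A)) _
      rw [← h4, ContinuousMap.norm_le _ (by linarith)]
      intro x
      obtain ⟨t, ht, ht0, ht1, htδ⟩ := hzx x
      have h5 : gelfandStarTransform (zc A) (z * cEquiv A y) x = x z * x (cEquiv A y) :=
        map_mul x z (cEquiv A y)
      rw [h5, ht, norm_mul, Complex.norm_real, Real.norm_eq_abs, abs_of_nonneg ht0]
      by_cases h0 : t = 0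
      · rw [h0, zero_mul]; linarith
      · have h6 := htδ h0
        rw [map_sub, map_one, sub_sub_cancel_left, norm_neg] at h6
        nlinarith [norm_nonneg (x (cEquiv A y))]
    rw [h2]
    have h7 : ‖((z * cEquiv A y : zc A) : A)‖ = ‖z * cEquiv A y‖ := rfl
    rw [h7]
    linarith
  have hxJ : x ∈ J := by
    have := (TwoSidedIdeal.mem_sInf _).mp hx
    exact this J ⟨hJ1, hJ2⟩
  exact (hJmem x).mp hxJ

/-- the main step -/
lemma map_van (T : A ≃ₗ[ℂ] B) (hr : ∀ x, sr (T x) = sr x) (h1 : T 1 = 1)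
    (ψ : characterSpace ℂ (zc B)) {x : A} (hx : Van (pull T hr h1 ψ) x) {J : TwoSidedIdeal B}
    (hJ : IsClosed (J : Set B)) (hψ : ∀ z : zc B, ψ z = 0 → (z : B) ∈ J) : T x ∈ J := by
  have h1' : T.symm 1 = 1 := by
    have := T.symm_apply_apply 1
    rwa [h1] at this
  have hback : ∀ (b : B) (K : ℝ), Loc ψ b K → Loc (pull T hr h1 ψ) (T.symm b) K := by
    intro b K hb
    have h2 : pull T.symm (symm_sr hr) h1' (pull T hr h1 ψ) = ψ := by
      refine DFunLike.ext _ _ fun z => ?_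
      show ψ (cen T hr (cen T.symm (symm_sr hr) z)) = ψ z
      congr 1
      apply Subtype.ext
      exact T.apply_symm_apply (z : B)
    have hb' : Loc (pull T.symm (symm_sr hr) h1' (pull T hr h1 ψ)) b K := by rw [h2]; exact hb
    exact Loc.transfer T.symm (symm_sr hr) h1' (pull T hr h1 ψ) hb'
  have hzero : ∀ K > 0, Loc (pull T hr h1 ψ) (0 : A) K := by
    intro K hK
    refine ⟨1, map_one _, by simp, ?_⟩
    rw [mul_zero, sr_zero]
    exact hK
  have key : ∀ x : A, Van (pull T hr h1 ψ) x → T x + star (T x) ∈ J := by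
    intro x hx
    apply mem_of_loc (χ := ψ) _ _ hJ hψ
    · exact IsSelfAdjoint.add_star_self (T x)
    · intro K hK
      have h2 : Loc ψ (T x) K := by
        have := Loc.transfer T hr h1 ψ (Loc.add_van hx (hzero K hK))
        rwa [add_zero] at this
      have h3 : Loc ψ (star (T x)) K := h2.star
      have h4 := hback _ _ h3
      have h5 := Loc.transfer T hr h1 ψ (Loc.add_van hx h4)
      rwa [map_add, T.apply_symm_apply] at h5
  have hx2 : Van (pull T hr h1 ψ) (Complex.I • x) := by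
    intro ε hε
    obtain ⟨z, hz, hzn, hzx⟩ := hx ε hε
    refine ⟨z, hz, hzn, ?_⟩
    rw [mul_smul_comm, norm_smul, Complex.norm_I, one_mul]
    exact hzx
  have h2 := key x hx
  have h3 := key _ hx2
  rw [map_smul, star_smul] at h3
  have hsm : ∀ (c : ℂ) (b : B), b ∈ J → c • b ∈ J := by
    intro c b hb
    rw [← one_mul b, ← smul_mul_assoc]
    exact J.mul_mem_left _ _ hb
  have h4 := J.add_mem (hsm (1 / 2) _ h2) (hsm (-Complex.I / 2) _ h3)
  have h5 : ((1 / 2 : ℂ) • (T x + star (T x)) + (-Complex.I / 2) •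
      (Complex.I • T x + star Complex.I • star (T x))) = T x := by
    simp only [RCLike.star_def, Complex.conj_I, smul_add, smul_smul]
    have e1 : -Complex.I / 2 * Complex.I = 1 / 2 := by
      rw [neg_div, neg_mul, div_mul_eq_mul_div, Complex.I_mul_I]; norm_num
    have e2 : -Complex.I / 2 * -Complex.I = -(1 / 2) := by
      rw [neg_div, neg_mul, mul_neg, neg_neg, div_mul_eq_mul_div, Complex.I_mul_I]; norm_num
    rw [e1, e2, neg_smul]
    have e3 : (1 / 2 : ℂ) • T x + (1 / 2 : ℂ) • T x = T x := by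
      rw [← add_smul]; norm_num
    calc (1 / 2 : ℂ) • T x + (1 / 2 : ℂ) • star (T x) + ((1 / 2 : ℂ) • T x
          + -((1 / 2 : ℂ) • star (T x))) = (1 / 2 : ℂ) • T x + (1 / 2 : ℂ) • T x := by abel
      _ = T x := e3
  rwa [h5] at h4

end Final

lemma injective_of_sr {A B : Type*} [CStarAlgebra A] [CStarAlgebra B] [Nontrivial A]
    (T : A →ₗ[ℂ] B) (hr : ∀ x, sr (T x) = sr x) : Function.Injective T := by
  rw [injective_iff_map_eq_zero]
  have key : ∀ x : A, T x = 0 → x + star x = 0 := by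
    intro x hx
    have h1 : ∀ a, sr (x + a) = sr a := by
      intro a
      rw [← hr, map_add, hx, zero_add, hr]
    have h2 : sr x = 0 := by
      have := h1 0
      rwa [add_zero, sr_zero] at this
    have h3 := h1 (star x)
    rw [sr_star, h2, sr_eq_norm_of_selfAdjoint (IsSelfAdjoint.add_star_self x)] at h3
    exact norm_eq_zero.mp h3
  intro x hx
  have h1 := key x hx
  have h2 := key (Complex.I • x) (by rw [map_smul, hx, smul_zero])
  rw [star_smul, RCLike.star_def, Complex.conj_I, neg_smul, ← sub_eq_add_neg, ← smul_sub] at h2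
  have h3 : x - star x = 0 := (smul_eq_zero.mp h2).resolve_left Complex.I_ne_zero
  have h4 : x + x = 0 := by
    have : x + x = (x + star x) + (x - star x) := by abel
    rw [this, h1, h3, add_zero]
  have h5 : (2 : ℂ) • x = 0 := by rw [two_smul]; exact h4
  exact (smul_eq_zero.mp h5).resolve_left two_ne_zero

/-- **Glimm ideals are invariant under unital surjective spectral isometries.** -/
theorem result {A B : Type*} [CStarAlgebra A] [CStarAlgebra B] (T : A →ₗ[ℂ] B)
    (hT : Function.Surjective T) (hone : T 1 = 1)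
    (hspec : ∀ x, spectralRadius ℂ (T x) = spectralRadius ℂ x)
    (m : Ideal (Subalgebra.center ℂ A)) (hm : m.IsMaximal) :
    ∃ n : Ideal (Subalgebra.center ℂ B), n.IsMaximal ∧
      ((↑) : Subalgebra.center ℂ B → B) '' (n : Set (Subalgebra.center ℂ B))
        = T '' (((↑) : Subalgebra.center ℂ A → A) '' (m : Set (Subalgebra.center ℂ A))) ∧
      T '' (glimmIdeal m : Set A) = (glimmIdeal n : Set B) := by
  have hr : ∀ x, sr (T x) = sr x := fun x => by rw [sr, hspec, sr]
  -- nontriviality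
  have hA : Nontrivial A := by
    by_contra hcon
    rw [not_nontrivial_iff_subsingleton] at hcon
    apply hm.ne_top
    rw [Ideal.eq_top_iff_one]
    have : (1 : Subalgebra.center ℂ A) = 0 := Subtype.ext (Subsingleton.elim _ _)
    rw [this]
    exact m.zero_mem
  have hB : Nontrivial B := by
    by_contra hcon
    rw [not_nontrivial_iff_subsingleton] at hcon
    have h1 := hspec 1
    rw [spectrum.SpectralRadius.of_subsingleton, spectrum.spectralRadius_one] at h1
    exact zero_ne_one h1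
  have hinj := injective_of_sr T hr
  let E : A ≃ₗ[ℂ] B := LinearEquiv.ofBijective T ⟨hinj, hT⟩
  have hE : ∀ x, E x = T x := fun x => rfl
  have hrE : ∀ x, sr (E x) = sr x := hr
  have hE1 : E 1 = 1 := hone
  have hE1' : E.symm 1 = 1 := by
    have := E.symm_apply_apply 1
    rwa [hE1] at this
  obtain ⟨χ, hχ⟩ := exists_character m hm
  let ψ := pull E.symm (symm_sr hrE) hE1' χ
  have hpull : pull E hrE hE1 ψ = χ := by
    refine DFunLike.ext _ _ fun z => ?_
    show χ (cen E.symm (symm_sr hrE) (cen E hrE z)) = χ z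
    congr 1
    apply Subtype.ext
    exact E.symm_apply_apply (z : A)
  refine ⟨kerIdeal ψ, kerIdeal_isMaximal ψ, ?_, ?_⟩
  · ext b
    constructor
    · rintro ⟨w, hw, rfl⟩
      have hw' : ψ (cEquiv B w) = 0 := hw
      refine ⟨E.symm w, ⟨⟨E.symm w, map_center E.symm (symm_sr hrE) (cEquiv B w)⟩, ?_, rfl⟩,
        E.apply_symm_apply _⟩
      show _ ∈ m
      rw [hχ]
      exact hw'
    · rintro ⟨_, ⟨z, hz, rfl⟩, rfl⟩
      have hz' : χ (cEquiv A z) = 0 := (hχ z).mp hz
      refine ⟨⟨T z, map_center E hrE (cEquiv A z)⟩, ?_, rfl⟩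
      show _ ∈ kerIdeal ψ
      rw [mem_kerIdeal]
      show χ (cen E.symm (symm_sr hrE) _) = 0
      rw [← hz']
      congr 1
      apply Subtype.ext
      exact E.symm_apply_apply (z : A)
  · apply Set.Subset.antisymm
    · rintro _ ⟨x, hx, rfl⟩
      have hv : Van (pull E hrE hE1 ψ) x := by
        rw [hpull]
        exact van_of_mem_glimm (fun z hz => (hχ z).mp hz) hx
      show T x ∈ glimmIdeal (kerIdeal ψ)
      apply (TwoSidedIdeal.mem_sInf _).mpr
      rintro J ⟨hJ, hJm⟩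
      apply map_van E hrE hE1 ψ hv hJ
      intro z hz
      exact hJm ⟨z.1, z.2⟩ hz
    · intro y hy
      refine ⟨E.symm y, ?_, E.apply_symm_apply y⟩
      have hv : Van (pull E.symm (symm_sr hrE) hE1' χ) y :=
        van_of_mem_glimm (m := kerIdeal ψ) (χ := ψ) (fun z hz => hz) hy
      show E.symm y ∈ glimmIdeal m
      apply (TwoSidedIdeal.mem_sInf _).mpr
      rintro J ⟨hJ, hJm⟩
      apply map_van E.symm (symm_sr hrE) hE1' χ hv hJ
      intro z hz
      exact hJm ⟨z.1, z.2⟩ ((hχ _).mpr hz)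

end Pool.Agent.Results.MP_6c6b5e_an.GlimmInvariant
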